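import Pool.Agent.W851.BE.Stm
set_option autoImplicit false

/-!
# Project BE: pieces of a branch
-/

namespace Pool.Agent.W571.BE.BR

open Pool.Agent.W95.BK Pool.Agent.W851.BE

universe u

theorem main : S_LAU.{u} → S_SK.{u} → S_BR.{u} := by
  intro hL hS K _ _ _ g b
  obtain ⟨B, hB⟩ := hL K g b
  refine ⟨B, fun u v hu huv hβ => ?_⟩
  obtain ⟨h1, c, κ, e, hκ, he, h2⟩ := hB u v hu huv hβ
  have h3 := hS K g b c u v κ e hu huv hκ he h1 h2
  by_cases h4 : 2 ≤ e.natAbs
  · left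
    intro t ht1 ht2
    rw [(h3 t ht1 ht2).2]
    exact h4
  · right
    have h5 : e.natAbs = 1 := by
      have : e.natAbs ≠ 0 := Int.natAbs_ne_zero.2 he
      omega
    refine ⟨fun t ht => ⟨lt_of_le_of_lt hu ht.1, by rw [(h3 t ht.1 ht.2).2, h5]⟩, c, κ, hκ, ?_⟩
    rcases Int.natAbs_eq_iff.1 h5 with h6 | h6
    · left
      intro t ht
      rw [(h3 t ht.1 ht.2).1, h6]
      norm_num
    · right
      intro t ht
      rw [(h3 t ht.1 ht.2).1, h6, div_eq_mul_inv]
      norm_num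

end Pool.Agent.W571.BE.BR
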