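import Pool.Agent.W851.BE.Stm
set_option autoImplicit false

/-!
# Project BE: counting isometric pieces
-/

namespace Pool.Agent.W571.BE.KK

open Pool.Agent.W95.BK Pool.Agent.W851.BE

universe u

theorem chain' (hZ : S_ZT.{u}) (hC : S_CHAIN.{u}) {K : Type u} [NontriviallyNormedField K]
    [IsUltrametricDist K] [IsAlgClosed K] (f g : RMap K) (a : K) {t : ℝ} (ht : 0 < t) :
    localDeg (f.comp g) (zt a t) = localDeg f (g.act (zt a t)) * localDeg g (zt a t) := by
  rw [zt_pos a ht]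
  exact hC K f g _ ((hZ K).2.2.1 a t ht)

open Classical in
theorem cover_card {ι : Type} (J : Finset ι) {X : Finset ℝ} (I : ι → Set ℝ)
    (hI : ∀ t ∈ X, ∃ j ∈ J, t ∈ I j) (N : ℕ)
    (hN : ∀ j ∈ J, (X.filter (fun t => t ∈ I j)).card ≤ N) : X.card ≤ J.card * N := by
  have h1 : X ⊆ J.biUnion (fun j => X.filter (fun t => t ∈ I j)) := by
    intro t ht
    obtain ⟨j, hj, hj'⟩ := hI t ht
    exact Finset.mem_biUnion.2 ⟨j, hj, Finset.mem_filter.2 ⟨ht, hj'⟩⟩
  calc X.card ≤ (J.biUnion (fun j => X.filter (fun t => t ∈ I j))).card := Finset.card_le_card h1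
    _ ≤ ∑ j ∈ J, (X.filter (fun t => t ∈ I j)).card := Finset.card_biUnion_le
    _ ≤ ∑ _j ∈ J, N := Finset.sum_le_sum hN
    _ = J.card * N := by rw [Finset.sum_const, smul_eq_mul]

theorem sep_sub {K : Type u} [NontriviallyNormedField K] [IsUltrametricDist K] {f : RMap K}
    {a : K} {X Y : Finset ℝ} (h : sep f a X) (hY : Y ⊆ X) : sep f a Y :=
  ⟨fun t ht => h.1 t (hY ht), fun t ht t' ht' h' => h.2 t (hY ht) t' (hY ht') h'⟩

/-- separated points in an order connected set of local degree one -/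
theorem sep_one {K : Type u} [NontriviallyNormedField K] [IsUltrametricDist K] {f : RMap K}
    {a : K} {X : Finset ℝ} (h : sep f a X) (I : Set ℝ) (hI : I.OrdConnected)
    (hX : ∀ t ∈ X, t ∈ I) (h1 : ∀ t ∈ I, localDeg f (zt a t) = 1) : X.card ≤ 1 := by
  rw [Finset.card_le_one]
  intro t ht t' ht'
  by_contra hne
  rcases lt_or_gt_of_ne hne with h2 | h2
  · obtain ⟨u, hu1, hu2, hu3⟩ := h.2 t ht t' ht' h2
    exact hu3 (h1 u (hI.out (hX t ht) (hX t' ht') ⟨hu1.le, hu2.le⟩))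
  · obtain ⟨u, hu1, hu2, hu3⟩ := h.2 t' ht' t ht h2
    exact hu3 (h1 u (hI.out (hX t' ht') (hX t ht) ⟨hu1.le, hu2.le⟩))

theorem main (hZ : S_ZT.{u}) (hD : S_DEG1.{u}) (hC : S_CHAIN.{u}) (hIt : S_ITER.{u})
    (hP : S_P.{u}) : S_K.{u} := by
  classical
  intro K _ _ _ R
  obtain ⟨η1, hη1, h1⟩ := hP K (R.iter 1)
  obtain ⟨η2, hη2, h2⟩ := hP K (R.iter 2)
  obtain ⟨η3, hη3, h3⟩ := hP K (R.iter 3)
  refine ⟨min η1 (min η2 η3), lt_min hη1 (lt_min hη2 hη3), ?_⟩
  set η : ℝ := min η1 (min η2 η3) with hη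
  have hη0 : 1 < η := lt_min hη1 (lt_min hη2 hη3)
  have e1 : η ≤ η1 := min_le_left _ _
  have e2 : η ≤ η2 := (min_le_right _ _).trans (min_le_left _ _)
  have e3 : η ≤ η3 := (min_le_right _ _).trans (min_le_right _ _)
  -- the simple case
  have base : ∀ (g : RMap K) (η' : ℝ), η ≤ η' → (∀ (a : K) (s : ℝ), 0 < s →
      ∃ I : Fin 4 → Set ℝ, (∀ j, (I j).OrdConnected ∧ I j ⊆ Set.Icc s (s * η') ∧ nice g a (I j)) ∧
        ∀ t ∈ Set.Icc s (s * η'), localDeg g (zt a t) = 1 → ∃ j, t ∈ I j) →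
      ∀ (a : K) (s : ℝ), 0 < s → ∀ X : Finset ℝ, (∀ t ∈ X, s ≤ t ∧ t ≤ s * η) → sep g a X →
        X.card ≤ 4 := by
    intro g η' hη' hg a s hs X hX hsep
    obtain ⟨I, hI1, hI2⟩ := hg a s hs
    have hcov : ∀ t ∈ X, ∃ j ∈ (Finset.univ : Finset (Fin 4)), t ∈ I j := by
      intro t ht
      obtain ⟨j, hj⟩ := hI2 t ⟨(hX t ht).1, (hX t ht).2.trans
        (mul_le_mul_of_nonneg_left hη' hs.le)⟩ (hsep.1 t ht).2
      exact ⟨j, Finset.mem_univ j, hj⟩
    have := cover_card Finset.univ I hcov 1 (by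
      intro j _
      refine sep_one (sep_sub hsep (Finset.filter_subset _ _)) (I j) (hI1 j).1 ?_ ?_
      · intro t ht
        exact (Finset.mem_filter.1 ht).2
      · intro t ht
        exact ((hI1 j).2.2.1 t ht).2)
    simpa using this
  intro n
  induction n using Nat.strong_induction_on with
  | _ n ih =>
  intro a s hs X hX hsep
  rcases lt_or_ge n 3 with hn | hn
  · have hn4 : 4 ^ (n / 3 + 1) = 4 := by
      have : n / 3 = 0 := by omega
      rw [this]
      norm_num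
    rw [hn4]
    interval_cases n
    · refine le_trans (sep_one hsep (Set.Ioi 0) Set.ordConnected_Ioi
        (fun t ht => (hsep.1 t ht).1) ?_) (by norm_num)
      intro t ht
      rw [zt_pos a ht]
      exact (hD K (R.iter 0) _ ((hZ K).2.2.1 a t ht)).2 rfl
    · exact base _ _ e1 h1 a s hs X hX hsep
    · exact base _ _ e2 h2 a s hs X hX hsep
  · have hit : R.iter n = (R.iter (n - 3)).comp (R.iter 3) := by
      rw [← (hIt K R).2.1 (n - 3) 3]
      congr 1
      omega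
    obtain ⟨I, hI1, hI2⟩ := h3 a s hs
    have hch : ∀ t : ℝ, 0 < t → localDeg (R.iter n) (zt a t) =
        localDeg (R.iter (n - 3)) ((R.iter 3).act (zt a t)) * localDeg (R.iter 3) (zt a t) := by
      intro t ht
      rw [hit]
      exact chain' hZ hC _ _ a ht
    have hcov : ∀ t ∈ X, ∃ j ∈ (Finset.univ : Finset (Fin 4)), t ∈ I j := by
      intro t ht
      obtain ⟨ht0, ht1⟩ := hsep.1 t ht
      rw [hch t ht0] at ht1
      obtain ⟨j, hj⟩ := hI2 t ⟨(hX t ht).1, (hX t ht).2.trans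
        (mul_le_mul_of_nonneg_left e3 hs.le)⟩ (mul_eq_one.1 ht1).2
      exact ⟨j, Finset.mem_univ j, hj⟩
    have hpow : 4 ^ (n / 3 + 1) = (Finset.univ : Finset (Fin 4)).card * 4 ^ ((n - 3) / 3 + 1) := by
      have : n / 3 = (n - 3) / 3 + 1 := by omega
      rw [this, pow_succ, Finset.card_univ, Fintype.card_fin, mul_comm]
    rw [hpow]
    refine cover_card Finset.univ I hcov _ (fun j _ => ?_)
    set Y : Finset ℝ := X.filter (fun t => t ∈ I j) with hY
    have hYs : sep (R.iter n) a Y := sep_sub hsep (Finset.filter_subset _ _)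
    have hYI : ∀ t ∈ Y, t ∈ I j := fun t ht => (Finset.mem_filter.1 ht).2
    have hYX : ∀ t ∈ Y, s ≤ t ∧ t ≤ s * η := fun t ht => hX t (Finset.mem_filter.1 ht).1
    obtain ⟨hord, -, hn1, c, κ, hκ, hκ2⟩ := hI1 j
    have hdeg : ∀ t ∈ I j, localDeg (R.iter n) (zt a t) =
        localDeg (R.iter (n - 3)) ((R.iter 3).act (zt a t)) := by
      intro t ht
      rw [hch t (hn1 t ht).1, (hn1 t ht).2, mul_one]
    rcases hκ2 with hκ2 | hκ2
    · -- increasing
      have hcard : (Y.image (fun t => κ * t)).card = Y.card :=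
        Finset.card_image_of_injective _ (fun x y h => mul_left_cancel₀ hκ.ne' h)
      rw [← hcard]
      refine ih (n - 3) (by omega) c (κ * s) (mul_pos hκ hs) _ ?_ ⟨?_, ?_⟩
      · intro t' ht'
        obtain ⟨t, ht, rfl⟩ := Finset.mem_image.1 ht'
        obtain ⟨g1, g2⟩ := hYX t ht
        refine ⟨mul_le_mul_of_nonneg_left g1 hκ.le, ?_⟩
        rw [mul_assoc]
        exact mul_le_mul_of_nonneg_left g2 hκ.le
      · intro t' ht'
        obtain ⟨t, ht, rfl⟩ := Finset.mem_image.1 ht'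
        refine ⟨mul_pos hκ (hYs.1 t ht).1, ?_⟩
        rw [← hκ2 t (hYI t ht), ← hdeg t (hYI t ht)]
        exact (hYs.1 t ht).2
      · intro t1' ht1' t2' ht2' hlt
        obtain ⟨t1, ht1, rfl⟩ := Finset.mem_image.1 ht1'
        obtain ⟨t2, ht2, rfl⟩ := Finset.mem_image.1 ht2'
        obtain ⟨u, hu1, hu2, hu3⟩ := hYs.2 t1 ht1 t2 ht2 (lt_of_mul_lt_mul_left hlt hκ.le)
        have huI : u ∈ I j := hord.out (hYI t1 ht1) (hYI t2 ht2) ⟨hu1.le, hu2.le⟩
        refine ⟨κ * u, mul_lt_mul_of_pos_left hu1 hκ, mul_lt_mul_of_pos_left hu2 hκ, ?_⟩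
        rw [← hκ2 u huI, ← hdeg u huI]
        exact hu3
    · -- decreasing
      have hY0 : ∀ t ∈ Y, 0 < t := fun t ht => (hYs.1 t ht).1
      have hcard : (Y.image (fun t => κ / t)).card = Y.card := by
        refine Finset.card_image_of_injOn ?_
        intro x hx y hy h
        have hx0 := hY0 x hx
        have hy0 := hY0 y hy
        have h' : κ / x = κ / y := h
        rw [div_eq_div_iff hx0.ne' hy0.ne'] at h'
        exact (mul_left_cancel₀ hκ.ne' h').symm
      have hη00 : 0 < η := by linarith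
      rw [← hcard]
      refine ih (n - 3) (by omega) c (κ / (s * η)) (div_pos hκ (mul_pos hs hη00)) _ ?_ ⟨?_, ?_⟩
      · intro t' ht'
        obtain ⟨t, ht, rfl⟩ := Finset.mem_image.1 ht'
        obtain ⟨g1, g2⟩ := hYX t ht
        refine ⟨div_le_div_of_nonneg_left hκ.le (hY0 t ht) g2, ?_⟩
        have : κ / (s * η) * η = κ / s := by
          field_simp
        rw [this]
        exact div_le_div_of_nonneg_left hκ.le hs g1
      · intro t' ht'
        obtain ⟨t, ht, rfl⟩ := Finset.mem_image.1 ht'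
        refine ⟨div_pos hκ (hYs.1 t ht).1, ?_⟩
        rw [← hκ2 t (hYI t ht), ← hdeg t (hYI t ht)]
        exact (hYs.1 t ht).2
      · intro t1' ht1' t2' ht2' hlt
        obtain ⟨t1, ht1, rfl⟩ := Finset.mem_image.1 ht1'
        obtain ⟨t2, ht2, rfl⟩ := Finset.mem_image.1 ht2'
        have p1 := hY0 t1 ht1
        have p2 := hY0 t2 ht2
        have hlt' : t2 < t1 := by
          have h : κ / t1 < κ / t2 := hlt
          exact (div_lt_div_iff_of_pos_left hκ p1 p2).1 h
        obtain ⟨u, hu1, hu2, hu3⟩ := hYs.2 t2 ht2 t1 ht1 hlt'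
        have huI : u ∈ I j := hord.out (hYI t2 ht2) (hYI t1 ht1) ⟨hu1.le, hu2.le⟩
        have pu : 0 < u := p2.trans hu1
        refine ⟨κ / u, (div_lt_div_iff_of_pos_left hκ p1 pu).2 hu2,
          (div_lt_div_iff_of_pos_left hκ pu p2).2 hu1, ?_⟩
        rw [← hκ2 u huI, ← hdeg u huI]
        exact hu3

/-- several intervals -/
theorem main2 (hK : S_K.{u}) : S_K2.{u} := by
  classical
  intro K _ _ _ R δ ρ hδ
  obtain ⟨η, hη, h⟩ := hK K R
  obtain ⟨N, hN⟩ := pow_unbounded_of_one_lt (ρ / δ) hη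
  refine ⟨4 * N, fun n a X hX hsep => ?_⟩
  have hη0 : 0 < η := by linarith
  obtain ⟨I, hI⟩ : ∃ I : ℕ → Set ℝ, ∀ k t, t ∈ I k ↔ (δ * η ^ k ≤ t ∧ t ≤ δ * η ^ k * η) :=
    ⟨fun k => Set.Icc (δ * η ^ k) (δ * η ^ k * η), fun k t => Iff.rfl⟩
  have h1 : X.card ≤ (Finset.range N).card * 4 ^ (n / 3 + 1) := by
    refine cover_card (Finset.range N) I ?_ _ ?_
    · intro t ht
      obtain ⟨g1, g2⟩ := hX t ht
      have h2 : 1 ≤ t / δ := (one_le_div hδ).2 g1
      obtain ⟨k, hk1, hk2⟩ := exists_nat_pow_near h2 hη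
      refine ⟨k, ?_, (hI k t).2 ⟨?_, ?_⟩⟩
      · rw [Finset.mem_range]
        have h3 : η ^ k < η ^ N :=
          lt_of_le_of_lt (hk1.trans (div_le_div_of_nonneg_right g2 hδ.le)) hN
        exact (pow_lt_pow_iff_right₀ hη).1 h3
      · rw [le_div_iff₀ hδ] at hk1
        linarith
      · rw [div_lt_iff₀ hδ, pow_succ] at hk2
        linarith
    · intro k _
      refine h n a (δ * η ^ k) (by positivity) _ ?_ (sep_sub hsep (Finset.filter_subset _ _))
      intro t ht
      exact (hI k t).1 (Finset.mem_filter.1 ht).2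
  rw [Finset.card_range, pow_succ] at h1
  linarith

end Pool.Agent.W571.BE.KK
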